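import Pool.Agent.Helper47_BS.StmtsT

/-! # BS squad, module INC: increments of logarithms along arcs -/

set_option autoImplicit false

namespace Pool.Agent.BS.H4

open Function Filter Topology Set

theorem arc_facts {K : Set ℂ} {x y : ℂ} (h : IsArc K x y) :
    IsCompact K ∧ IsPreconnected K ∧ x ∈ K ∧ y ∈ K := by
  obtain ⟨α, hc, -, h0, h1, rfl⟩ := h
  refine ⟨isCompact_Icc.image_of_continuousOn hc, isPreconnected_Icc.image α hc, ?_, ?_⟩
  · exact ⟨0, ⟨le_refl _, zero_le_one⟩, h0⟩
  · exact ⟨1, ⟨zero_le_one, le_refl _⟩, h1⟩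

theorem arc_rev {K : Set ℂ} {x y : ℂ} (h : IsArc K x y) : IsArc K y x := by
  obtain ⟨α, hc, hi, h0, h1, rfl⟩ := h
  have hm : MapsTo (fun t : ℝ => 1 - t) (Icc 0 1) (Icc 0 1) := by
    intro t ht
    exact ⟨by linarith [ht.2], by linarith [ht.1]⟩
  refine ⟨fun t => α (1 - t), ?_, ?_, ?_, ?_, ?_⟩
  · exact hc.comp (by fun_prop) hm
  · intro s hs t ht hst
    have := hi (hm hs) (hm ht) hst
    linarith
  · simpa using h1
  · simpa using h0
  · ext z
    constructor
    · rintro ⟨t, ht, rfl⟩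
      exact ⟨1 - t, hm ht, rfl⟩
    · rintro ⟨t, ht, rfl⟩
      exact ⟨1 - t, hm ht, by simp⟩

/-- two continuous logarithms on a preconnected set differ by a constant -/
theorem log_const {K : Set ℂ} (hK : IsPreconnected K) {g g' : ℂ → ℂ} (hg : ContinuousOn g K)
    (hg' : ContinuousOn g' K) (h : ∀ t ∈ K, Complex.exp (g t) = Complex.exp (g' t))
    {x y : ℂ} (hx : x ∈ K) (hy : y ∈ K) : g x - g' x = g y - g' y := by
  -- the function (g - g') / (2 π i) takes integer values
  have hn : ∀ t ∈ K, ∃ n : ℤ, (((g t - g' t) / (2 * Real.pi * Complex.I)).re : ℝ) = n ∧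
      g t - g' t = n * (2 * Real.pi * Complex.I) := by
    intro t ht
    have h1 : Complex.exp (g t - g' t) = 1 := by
      rw [Complex.exp_sub, h t ht, div_self (Complex.exp_ne_zero _)]
    obtain ⟨n, hn⟩ := Complex.exp_eq_one_iff.1 h1
    refine ⟨n, ?_, hn⟩
    rw [hn, mul_div_assoc, div_self Complex.two_pi_I_ne_zero, mul_one]
    simp
  have hc : ContinuousOn (fun t => (((g t - g' t) / (2 * Real.pi * Complex.I)).re : ℝ)) K :=
    Complex.continuous_re.comp_continuousOn ((hg.sub hg').div_const _)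
  have hmt : MapsTo (fun t => (((g t - g' t) / (2 * Real.pi * Complex.I)).re : ℝ)) K
      (range ((↑) : ℤ → ℝ)) := by
    intro t ht
    obtain ⟨n, hn, -⟩ := hn t ht
    exact ⟨n, hn.symm⟩
  have hd : IsDiscrete (range ((↑) : ℤ → ℝ)) := by
    rw [isDiscrete_iff_forall_mem_exists_isOpen]
    rintro _ ⟨n, rfl⟩
    refine ⟨Ioo ((n : ℝ) - 1) (n + 1), isOpen_Ioo, ?_⟩
    ext r
    constructor
    · rintro ⟨⟨h1, h2⟩, m, rfl⟩
      have h3 : n - 1 < m := by exact_mod_cast h1
      have h4 : m < n + 1 := by exact_mod_cast h2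
      have h5 : m = n := by omega
      rw [h5]
      rfl
    · rintro rfl
      exact ⟨⟨by linarith, by linarith⟩, n, rfl⟩
  have he := hK.constant_of_mapsTo hd hc hmt hx hy
  obtain ⟨n, h1, h2⟩ := hn x hx
  obtain ⟨m, h3, h4⟩ := hn y hy
  rw [h1, h3] at he
  rw [h2, h4]
  have : n = m := by exact_mod_cast he
  rw [this]

theorem isInc_unique {K : Set ℂ} (hK : IsPreconnected K) {x y z w w' : ℂ} (hx : x ∈ K)
    (hy : y ∈ K) (h : IsInc K x y z w) (h' : IsInc K x y z w') : w = w' := by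
  obtain ⟨g, hg, he, rfl⟩ := h
  obtain ⟨g', hg', he', rfl⟩ := h'
  have := log_const hK hg hg' (fun t ht => by rw [he t ht, he' t ht]) hx hy
  linear_combination -this

theorem inc_eq {K : Set ℂ} (hK : IsPreconnected K) {x y z w : ℂ} (hx : x ∈ K)
    (hy : y ∈ K) (h : IsInc K x y z w) : inc K x y z = w := by
  have he : ∃ w, IsInc K x y z w := ⟨w, h⟩
  have h2 : IsInc K x y z (inc K x y z) := by
    rw [inc, dif_pos he]
    exact he.choose_spec
  exact isInc_unique hK hx hy h2 h

theorem isInc_inc {K : Set ℂ} {x y z w : ℂ} (h : IsInc K x y z w) :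
    IsInc K x y z (inc K x y z) := by
  have he : ∃ w, IsInc K x y z w := ⟨w, h⟩
  rw [inc, dif_pos he]
  exact he.choose_spec

/-- Module INC. -/
theorem inc (hAL : ArcLogStmt) : IncStmt := by
  intro K x y hA z hz
  obtain ⟨hcp, hpc, hxK, hyK⟩ := arc_facts hA
  have hne : ∀ t ∈ K, t - z ≠ 0 := by
    intro t ht h0
    exact hz (by rwa [← sub_eq_zero.1 h0])
  obtain ⟨g, hg, hge⟩ := hAL K x y hA (fun t => t - z) (by fun_prop) hne
  have hI : IsInc K x y z (g y - g x) := ⟨g, hg, hge, rfl⟩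
  have hinc : BS.inc K x y z = g y - g x := inc_eq hpc hxK hyK hI
  refine ⟨isInc_inc hI, ?_, ?_, ?_, ?_⟩
  · intro w hw
    rw [hinc]
    exact isInc_unique hpc hxK hyK hw hI
  · rw [hinc, inc_eq hpc hyK hxK ⟨g, hg, hge, rfl⟩]
    ring
  · rw [hinc, Complex.exp_sub, hge y hyK, hge x hxK]
  · intro K' w hA' hKK hz'
    obtain ⟨hcp', hpc', hyK', hwK'⟩ := arc_facts hA'
    have hne' : ∀ t ∈ K', t - z ≠ 0 := by
      intro t ht h0
      exact hz' (by rwa [← sub_eq_zero.1 h0])
    obtain ⟨g', hg', hge'⟩ := hAL K' y w hA' (fun t => t - z) (by fun_prop) hne'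
    have hinc' : BS.inc K' y w z = g' w - g' y := inc_eq hpc' hyK' hwK' ⟨g', hg', hge', rfl⟩
    classical
    let G : ℂ → ℂ := fun t => if t ∈ K then g t else g' t + (g y - g' y)
    have hG1 : ∀ t ∈ K, G t = g t := fun t ht => if_pos ht
    have hG2 : ∀ t ∈ K', G t = g' t + (g y - g' y) := by
      intro t ht
      by_cases h : t ∈ K
      · have : t = y := by
          have : t ∈ K ∩ K' := ⟨h, ht⟩
          rw [hKK] at this
          exact this
        subst this
        rw [hG1 t h]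
        ring
      · exact if_neg h
    have hGc : ContinuousOn G (K ∪ K') := by
      refine ContinuousOn.union_of_isClosed ?_ ?_ hcp.isClosed hcp'.isClosed
      · exact hg.congr hG1
      · exact (hg'.add continuousOn_const).congr hG2
    have h1 : Complex.exp (g y - g' y) = 1 := by
      rw [Complex.exp_sub, hge y hyK, hge' y hyK']
      exact div_self (hne y hyK)
    have hGe : ∀ t ∈ K ∪ K', Complex.exp (G t) = t - z := by
      rintro t (ht | ht)
      · rw [hG1 t ht, hge t ht]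
      · rw [hG2 t ht, Complex.exp_add, h1, mul_one, hge' t ht]
    have hpu : IsPreconnected (K ∪ K') := IsPreconnected.union y hyK hyK' hpc hpc'
    rw [inc_eq hpu (Or.inl hxK) (Or.inr hwK') ⟨G, hGc, hGe, rfl⟩, hinc, hinc', hG1 x hxK,
      hG2 w hwK']
    ring

end Pool.Agent.BS.H4
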