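import Pool.Agent.Helper4_BS.WND

/-! # BS squad, module JORDAN: complementary components of a Jordan curve -/

set_option autoImplicit false

namespace Pool.Agent.BS.H4

open Function Filter Topology Set

/-- If two logarithms on the two arcs of a Jordan curve have equal increments, they can be glued. -/
theorem glue_log {K₁ K₂ : Set ℂ} {x y : ℂ} (hJ : IsJor K₁ K₂ x y) {F : ℂ → ℂ} {g₁ g₂ : ℂ → ℂ}
    (h1 : ContinuousOn g₁ K₁) (h2 : ContinuousOn g₂ K₂)
    (e1 : ∀ t ∈ K₁, Complex.exp (g₁ t) = F t) (e2 : ∀ t ∈ K₂, Complex.exp (g₂ t) = F t)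
    (hinc : g₁ y - g₁ x = g₂ y - g₂ x) :
    ∃ g : ℂ → ℂ, ContinuousOn g (K₁ ∪ K₂) ∧ ∀ t ∈ K₁ ∪ K₂, Complex.exp (g t) = F t := by
  obtain ⟨hcp1, hpc1, hxK1, hyK1⟩ := arc_facts hJ.arc₁
  obtain ⟨hcp2, hpc2, hxK2, hyK2⟩ := arc_facts hJ.arc₂
  classical
  let G : ℂ → ℂ := fun t => if t ∈ K₁ then g₁ t else g₂ t + (g₁ x - g₂ x)
  have hG1 : ∀ t ∈ K₁, G t = g₁ t := fun t ht => if_pos ht
  have hG2 : ∀ t ∈ K₂, G t = g₂ t + (g₁ x - g₂ x) := by
    intro t ht
    by_cases h : t ∈ K₁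
    · have hm : t ∈ K₁ ∩ K₂ := ⟨h, ht⟩
      rw [hJ.inter] at hm
      rw [hG1 t h]
      rcases hm with hm | hm
      · rw [hm]
        ring
      · rw [mem_singleton_iff.1 hm]
        linear_combination hinc
    · exact if_neg h
  have hexp : Complex.exp (g₁ x - g₂ x) = 1 := by
    rw [Complex.exp_sub, e1 x hxK1, e2 x hxK2]
    refine div_self ?_
    rw [← e1 x hxK1]
    exact Complex.exp_ne_zero _
  refine ⟨G, ?_, ?_⟩
  · refine ContinuousOn.union_of_isClosed ?_ ?_ hcp1.isClosed hcp2.isClosed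
    · exact h1.congr hG1
    · exact (h2.add continuousOn_const).congr hG2
  · rintro t (ht | ht)
    · rw [hG1 t ht, e1 t ht]
    · rw [hG2 t ht, Complex.exp_add, hexp, mul_one, e2 t ht]

theorem frontier_comp_subset {K : Set ℂ} (hK : IsClosed K) (z : ℂ) :
    frontier (connectedComponentIn Kᶜ z) ⊆ K := by
  intro w hw
  by_contra hwK
  have hopen : IsOpen (connectedComponentIn Kᶜ z) := hK.isOpen_compl.connectedComponentIn
  have hwn : connectedComponentIn Kᶜ w ∈ 𝓝 w :=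
    (hK.isOpen_compl.connectedComponentIn).mem_nhds (mem_connectedComponentIn hwK)
  have hcl : w ∈ closure (connectedComponentIn Kᶜ z) := frontier_subset_closure hw
  obtain ⟨v, hv1, hv2⟩ := mem_closure_iff_nhds.1 hcl _ hwn
  have h1 := connectedComponentIn_eq hv1
  have h2 := connectedComponentIn_eq hv2
  have h3 : w ∈ connectedComponentIn Kᶜ z := by
    rw [h2, ← h1]
    exact mem_connectedComponentIn hwK
  rw [hopen.frontier_eq] at hw
  exact hw.2 h3

/-- a point outside a bounded set and a compact set -/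
theorem exists_far {B : Set ℂ} (hB : Bornology.IsBounded B) : ∃ z : ℂ, z ∉ B := by
  obtain ⟨R, hR⟩ := hB.exists_norm_le
  refine ⟨((|R| + 1 : ℝ) : ℂ), fun h => ?_⟩
  have := hR _ h
  rw [Complex.norm_real, Real.norm_eq_abs, abs_of_pos (by positivity)] at this
  linarith [le_abs_self R]

/-- Module JORDAN. -/
theorem jordan (hB : BorsukStmt) (hAO : ArcOpStmt) (hAC : ArcComplStmt) (hI : IncStmt)
    (hW : WndStmt) : JordanStmt := by
  intro K₁ K₂ x y hJ
  obtain ⟨hcp1, hpc1, hxK1, hyK1⟩ := arc_facts hJ.arc₁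
  obtain ⟨hcp2, hpc2, hxK2, hyK2⟩ := arc_facts hJ.arc₂
  have hcp : IsCompact (K₁ ∪ K₂) := hcp1.union hcp2
  obtain ⟨hW1, hW2, hW3⟩ := hW K₁ K₂ x y hJ
  have hfirst : ∀ z ∉ K₁ ∪ K₂, Bornology.IsBounded (connectedComponentIn (K₁ ∪ K₂)ᶜ z) →
      BS.wnd K₁ K₂ x y z ≠ 0 := by
    intro z hz hbd h0
    obtain ⟨⟨g₁, hg1, he1, hw1⟩, -⟩ := hI K₁ x y hJ.arc₁ z (fun h => hz (Or.inl h))
    obtain ⟨⟨g₂, hg2, he2, hw2⟩, -⟩ := hI K₂ x y hJ.arc₂ z (fun h => hz (Or.inr h))
    have hinc : g₁ y - g₁ x = g₂ y - g₂ x := by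
      rw [hw1, hw2]
      rw [BS.wnd] at h0
      exact sub_eq_zero.1 h0
    obtain ⟨g, hgc, hge⟩ := glue_log hJ hg1 hg2 he1 he2 hinc
    obtain ⟨z₂, hz₂⟩ := exists_far (hcp.isBounded.union hbd)
    refine hB (K₁ ∪ K₂) z z₂ 1 0 hcp hz (fun h => hz₂ (Or.inl h)) hbd (fun h => hz₂ (Or.inr h))
      one_ne_zero ⟨g, hgc, fun t ht => ?_⟩
    rw [hge t ht, zpow_one, zpow_zero, mul_one]
  refine ⟨hfirst, ?_, ?_⟩
  · intro z hz z' hz' hbd hbd'
    by_contra hne
    have hz'c : z' ∉ connectedComponentIn (K₁ ∪ K₂)ᶜ z := by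
      intro h
      exact hne (connectedComponentIn_eq h)
    obtain ⟨n, hn⟩ := hW1 z hz
    obtain ⟨m, hm⟩ := hW1 z' hz'
    have hm0 : m ≠ 0 := by
      intro h0
      apply hfirst z' hz' hbd'
      rw [hm, h0]
      simp
    obtain ⟨⟨g₁, hg1, he1, hw1⟩, -⟩ := hI K₁ x y hJ.arc₁ z (fun h => hz (Or.inl h))
    obtain ⟨⟨g₂, hg2, he2, hw2⟩, -⟩ := hI K₂ x y hJ.arc₂ z (fun h => hz (Or.inr h))
    obtain ⟨⟨g₁', hg1', he1', hw1'⟩, -⟩ := hI K₁ x y hJ.arc₁ z' (fun h => hz' (Or.inl h))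
    obtain ⟨⟨g₂', hg2', he2', hw2'⟩, -⟩ := hI K₂ x y hJ.arc₂ z' (fun h => hz' (Or.inr h))
    have hinc : ((m : ℂ) * g₁ y - n * g₁' y) - ((m : ℂ) * g₁ x - n * g₁' x) =
        ((m : ℂ) * g₂ y - n * g₂' y) - ((m : ℂ) * g₂ x - n * g₂' x) := by
      rw [BS.wnd, ← hw1, ← hw2] at hn
      rw [BS.wnd, ← hw1', ← hw2'] at hm
      linear_combination (m : ℂ) * hn - (n : ℂ) * hm
    have hexp : ∀ (a b : ℂ → ℂ) (t : ℂ), Complex.exp (a t) = t - z → Complex.exp (b t) = t - z' →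
        Complex.exp ((m : ℂ) * a t - n * b t) = (t - z) ^ m * (t - z') ^ (-n) := by
      intro a b t ha hb
      rw [sub_eq_add_neg, Complex.exp_add, ← ha, ← hb, Complex.exp_int_mul, zpow_neg,
        Complex.exp_neg, Complex.exp_int_mul]
    obtain ⟨g, hgc, hge⟩ := glue_log (F := fun t => (t - z) ^ m * (t - z') ^ (-n)) hJ
      (g₁ := fun t => (m : ℂ) * g₁ t - n * g₁' t) (g₂ := fun t => (m : ℂ) * g₂ t - n * g₂' t)
      ((continuousOn_const.mul hg1).sub (continuousOn_const.mul hg1'))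
      ((continuousOn_const.mul hg2).sub (continuousOn_const.mul hg2'))
      (fun t ht => hexp g₁ g₁' t (he1 t ht) (he1' t ht))
      (fun t ht => hexp g₂ g₂' t (he2 t ht) (he2' t ht)) hinc
    exact hB (K₁ ∪ K₂) z z' m (-n) hcp hz hz' hbd hz'c hm0 ⟨g, hgc, hge⟩
  · intro z hz hbd z' hz' hub w hw hwx hwy
    by_contra hcl
    obtain ⟨-, -, hAO3, -, hAO5⟩ := hAO
    set U := connectedComponentIn (K₁ ∪ K₂)ᶜ z' with hU
    have hUo : IsOpen U := (hcp.isClosed.isOpen_compl).connectedComponentIn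
    obtain ⟨ε, hε, hball⟩ := Metric.isOpen_iff.1 (isClosed_closure (s := U)).isOpen_compl w hcl
    obtain ⟨A, B, x', y', hA, hBa, hABs, hAB, hwAB, hnear⟩ := hAO5 K₁ x y w hJ.arc₁ hw hwx hwy ε hε
    obtain ⟨hAcp, -, hxA, hx'A⟩ := arc_facts hA
    obtain ⟨hBcp, -, hy'B, hyB⟩ := arc_facts hBa
    have hyA : y ∉ A := fun h => (Set.disjoint_left.1 hAB) h hyB
    have hxB : x ∉ B := fun h => (Set.disjoint_left.1 hAB) hxA h
    -- the big arc
    have h1 : IsArc (A ∪ K₂) x' y := by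
      refine hAO3 A K₂ x' x y (arc_rev hA) hJ.arc₂ ?_
      ext t
      constructor
      · rintro ⟨ht1, ht2⟩
        have hm : t ∈ K₁ ∩ K₂ := ⟨hABs (Or.inl ht1), ht2⟩
        rw [hJ.inter] at hm
        rcases hm with hm | hm
        · exact hm
        · rw [mem_singleton_iff.1 hm] at ht1
          exact absurd ht1 hyA
      · rintro ht
        rw [mem_singleton_iff.1 ht]
        exact ⟨hxA, hxK2⟩
    have h2 : IsArc ((A ∪ K₂) ∪ B) x' y' := by
      refine hAO3 (A ∪ K₂) B x' y y' h1 (arc_rev hBa) ?_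
      ext t
      constructor
      · rintro ⟨ht1 | ht1, ht2⟩
        · exact absurd ht2 (Set.disjoint_left.1 hAB ht1)
        · have hm : t ∈ K₁ ∩ K₂ := ⟨hABs (Or.inr ht2), ht1⟩
          rw [hJ.inter] at hm
          rcases hm with hm | hm
          · rw [hm] at ht2
            exact absurd ht2 hxB
          · exact hm
      · rintro ht
        rw [mem_singleton_iff.1 ht]
        exact ⟨Or.inr hyK2, hyB⟩
    have hfs : frontier U ⊆ K₁ ∪ K₂ := frontier_comp_subset hcp.isClosed z'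
    have hfr : frontier U ⊆ (A ∪ K₂) ∪ B := by
      intro t ht
      rcases hfs ht with h | h
      · by_cases hAt : t ∈ A ∪ B
        · rcases hAt with h' | h'
          · exact Or.inl (Or.inl h')
          · exact Or.inr h'
        · exfalso
          exact hball (Metric.mem_ball.2 (hnear t h hAt)) (frontier_subset_closure ht)
      · exact Or.inl (Or.inr h)
    have hconn := ((hAC _ _ _ h2).1 (frontier U) hfr isClosed_frontier).isPreconnected
    have hz'U : z' ∈ U := mem_connectedComponentIn hz'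
    have hzU : z ∉ U := by
      intro h
      have := connectedComponentIn_eq h
      rw [hU, this] at hub
      exact hub hbd
    have hzF : z ∉ frontier U := fun h => hz (hfs h)
    have hz'F : z' ∉ frontier U := fun h => hz' (hfs h)
    have hcov : (frontier U)ᶜ ⊆ U ∪ (closure U)ᶜ := by
      intro t ht
      by_cases h : t ∈ closure U
      · left
        by_contra h'
        apply ht
        rw [hUo.frontier_eq]
        exact ⟨h, h'⟩
      · exact Or.inr h
    have hzcl : z ∈ (closure U)ᶜ := by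
      rcases hcov hzF with h | h
      · exact absurd h hzU
      · exact h
    obtain ⟨t, -, ht1, ht2⟩ := hconn U (closure U)ᶜ hUo isClosed_closure.isOpen_compl hcov
      ⟨z', hz'F, hz'U⟩ ⟨z, hzF, hzcl⟩
    exact ht2 (subset_closure ht1)

end Pool.Agent.BS.H4
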