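import Pool.Agent.Helper4_BS.INC

/-! # BS squad, module WND: winding numbers of Jordan curves, easy part -/

set_option autoImplicit false

namespace Pool.Agent.BS.H4

open Function Filter Topology Set

/-- moving the base point a little changes the increment by a difference of principal logs -/
theorem inc_move (hI : IncStmt) {K : Set ℂ} {x y : ℂ} (hA : IsArc K x y) {z z' : ℂ}
    (hz : z ∉ K) {r : ℝ} (hr : ∀ t ∈ K, r ≤ dist t z) (hzz : dist z z' < r) :
    z' ∉ K ∧ BS.inc K x y z' = BS.inc K x y z + Complex.log ((y - z') / (y - z)) -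
      Complex.log ((x - z') / (x - z)) := by
  obtain ⟨hcp, hpc, hxK, hyK⟩ := arc_facts hA
  have hz' : z' ∉ K := by
    intro h
    have := hr z' h
    rw [dist_comm] at this
    linarith
  refine ⟨hz', ?_⟩
  obtain ⟨⟨g, hg, hge, hgw⟩, -⟩ := hI K x y hA z hz
  have hne : ∀ t ∈ K, t - z ≠ 0 := by
    intro t ht h0
    exact hz (by rwa [← sub_eq_zero.1 h0])
  have hne' : ∀ t ∈ K, t - z' ≠ 0 := by
    intro t ht h0
    exact hz' (by rwa [← sub_eq_zero.1 h0])
  have hslit : ∀ t ∈ K, (t - z') / (t - z) ∈ Complex.slitPlane := by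
    intro t ht
    have h1 : (t - z') / (t - z) = 1 + (z - z') / (t - z) := by
      field_simp [hne t ht]
      ring
    have h2 : ‖(z - z') / (t - z)‖ < 1 := by
      rw [norm_div, div_lt_one (norm_pos_iff.2 (hne t ht))]
      have := hr t ht
      rw [dist_eq_norm] at this hzz
      linarith
    rw [h1]
    exact Complex.mem_slitPlane_of_norm_lt_one h2
  have hinc : IsInc K x y z' (BS.inc K x y z + Complex.log ((y - z') / (y - z)) -
      Complex.log ((x - z') / (x - z))) := by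
    refine ⟨fun t => g t + Complex.log ((t - z') / (t - z)), ?_, ?_, ?_⟩
    · refine hg.add (ContinuousOn.clog ?_ hslit)
      refine ContinuousOn.div (by fun_prop) (by fun_prop) hne
    · intro t ht
      rw [Complex.exp_add, hge t ht, Complex.exp_log (div_ne_zero (hne' t ht) (hne t ht))]
      field_simp [hne t ht]
    · rw [← hgw]
      ring
  exact inc_eq hpc hxK hyK hinc

/-- far away from the arc the increment is a difference of principal logs -/
theorem inc_far {K : Set ℂ} {x y : ℂ} (hA : IsArc K x y) {z : ℂ}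
    (hz : ∀ t ∈ K, ‖t‖ < ‖z‖) :
    BS.inc K x y z = Complex.log (1 - y / z) - Complex.log (1 - x / z) := by
  obtain ⟨hcp, hpc, hxK, hyK⟩ := arc_facts hA
  have hz0 : z ≠ 0 := by
    intro h0
    have := hz x hxK
    rw [h0, norm_zero] at this
    exact absurd this (not_lt.2 (norm_nonneg _))
  have hslit : ∀ t ∈ K, 1 - t / z ∈ Complex.slitPlane := by
    intro t ht
    rw [sub_eq_add_neg]
    refine Complex.mem_slitPlane_of_norm_lt_one ?_
    rw [norm_neg, norm_div, div_lt_one (norm_pos_iff.2 hz0)]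
    exact hz t ht
  refine inc_eq hpc hxK hyK ⟨fun t => Complex.log (-z) + Complex.log (1 - t / z), ?_, ?_, ?_⟩
  · exact continuousOn_const.add (ContinuousOn.clog (by fun_prop) hslit)
  · intro t ht
    rw [Complex.exp_add, Complex.exp_log (neg_ne_zero.2 hz0),
      Complex.exp_log (Complex.slitPlane_ne_zero (hslit t ht))]
    field_simp
    ring
  · ring

/-- Module WND. -/
theorem wnd (hI : IncStmt) : WndStmt := by
  intro K₁ K₂ x y hJ
  obtain ⟨hcp1, hpc1, hxK1, hyK1⟩ := arc_facts hJ.arc₁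
  obtain ⟨hcp2, hpc2, hxK2, hyK2⟩ := arc_facts hJ.arc₂
  have hopen : IsOpen (K₁ ∪ K₂)ᶜ := (hcp1.isClosed.union hcp2.isClosed).isOpen_compl
  -- local constancy
  have hloc : ∀ z ∉ K₁ ∪ K₂, ∃ r : ℝ, 0 < r ∧ ∀ z', dist z z' < r →
      BS.wnd K₁ K₂ x y z' = BS.wnd K₁ K₂ x y z := by
    intro z hz
    obtain ⟨r, hr, hb⟩ := Metric.isOpen_iff.1 hopen z hz
    have hd : ∀ t ∈ K₁ ∪ K₂, r ≤ dist t z := by
      intro t ht
      by_contra hlt
      exact hb (Metric.mem_ball.2 (not_le.1 hlt)) ht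
    refine ⟨r, hr, fun z' hz' => ?_⟩
    have h1 := (inc_move hI hJ.arc₁ (fun h => hz (Or.inl h)) (fun t ht => hd t (Or.inl ht)) hz').2
    have h2 := (inc_move hI hJ.arc₂ (fun h => hz (Or.inr h)) (fun t ht => hd t (Or.inr ht)) hz').2
    rw [BS.wnd, BS.wnd, h1, h2]
    ring
  have hcomp : ∀ z ∉ K₁ ∪ K₂, ∀ z' ∈ connectedComponentIn (K₁ ∪ K₂)ᶜ z,
      BS.wnd K₁ K₂ x y z' = BS.wnd K₁ K₂ x y z := by
    intro z hz z' hz'
    by_contra hne
    have hpre : IsPreconnected (connectedComponentIn (K₁ ∪ K₂)ᶜ z) :=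
      isPreconnected_connectedComponentIn
    have hsub := connectedComponentIn_subset (K₁ ∪ K₂)ᶜ z
    have hopenP : ∀ P : ℂ → Prop, IsOpen {p : ℂ | p ∉ K₁ ∪ K₂ ∧ P (BS.wnd K₁ K₂ x y p)} := by
      intro P
      rw [Metric.isOpen_iff]
      rintro p ⟨hp, hP⟩
      obtain ⟨r, hr, hb⟩ := Metric.isOpen_iff.1 hopen p hp
      obtain ⟨r', hr', hw⟩ := hloc p hp
      refine ⟨min r r', lt_min hr hr', fun q hq => ?_⟩
      rw [Metric.mem_ball] at hq
      refine ⟨hb (Metric.mem_ball.2 (lt_of_lt_of_le hq (min_le_left _ _))), ?_⟩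
      rw [hw q (by rw [dist_comm]; exact lt_of_lt_of_le hq (min_le_right _ _))]
      exact hP
    obtain ⟨q, hq, ⟨-, hq1⟩, ⟨-, hq2⟩⟩ := hpre _ _
      (hopenP (fun w => w = BS.wnd K₁ K₂ x y z)) (hopenP (fun w => w ≠ BS.wnd K₁ K₂ x y z))
      (fun p hp => by
        by_cases h : BS.wnd K₁ K₂ x y p = BS.wnd K₁ K₂ x y z
        · exact Or.inl ⟨hsub hp, h⟩
        · exact Or.inr ⟨hsub hp, h⟩)
      ⟨z, mem_connectedComponentIn hz, hz, rfl⟩ ⟨z', hz', hsub hz', hne⟩
    exact hq2 hq1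
  refine ⟨?_, hcomp, ?_⟩
  · intro z hz
    have h1 := (hI K₁ x y hJ.arc₁ z (fun h => hz (Or.inl h))).2.2.2.1
    have h2 := (hI K₂ x y hJ.arc₂ z (fun h => hz (Or.inr h))).2.2.2.1
    have h3 : Complex.exp (BS.wnd K₁ K₂ x y z) = 1 := by
      rw [BS.wnd, Complex.exp_sub, h1, h2]
      refine div_self (div_ne_zero ?_ ?_)
      · intro h0
        exact hz (Or.inl (by rwa [← sub_eq_zero.1 h0]))
      · intro h0
        exact hz (Or.inl (by rwa [← sub_eq_zero.1 h0]))
    exact Complex.exp_eq_one_iff.1 h3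
  · intro z hz hub
    obtain ⟨R, hR⟩ := (hcp1.union hcp2).isBounded.exists_norm_le
    have : ∃ z' ∈ connectedComponentIn (K₁ ∪ K₂)ᶜ z, R < ‖z'‖ := by
      by_contra hcon
      push Not at hcon
      exact hub (isBounded_iff_forall_norm_le.2 ⟨R, hcon⟩)
    obtain ⟨z', hz', hRz⟩ := this
    rw [← hcomp z hz z' hz', BS.wnd,
      inc_far hJ.arc₁ (fun t ht => lt_of_le_of_lt (hR t (Or.inl ht)) hRz),
      inc_far hJ.arc₂ (fun t ht => lt_of_le_of_lt (hR t (Or.inr ht)) hRz)]
    ring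

end Pool.Agent.BS.H4
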